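import Pool.Agent.helper58.FI4E.Spec

/-!
# Row fi4e:MN4E of MP_baa4d7_al: the traces of an automorphism on `B` and on its Brauer correspondent
-/

set_option autoImplicit false

namespace Pool.Agent.FI4E

open Pool.Agent.helper58.DC Pool.Agent.DI Pool.Agent.GR Pool.Agent.OB Pool.Agent.DR Pool.Agent.FI Pool.Agent.FI3 Pool.Agent.FI4 Pool.Agent.FI4I

/-- `O_p(G)` exists. -/
theorem MN4E_op (p : ℕ) (hp : p.Prime) (G : Type) [Group G] [Finite G] : ∃ R : Subgroup G, IsOp p (⊤ : Subgroup G) R := by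
  classical
  haveI : Fact p.Prime := ⟨hp⟩
  obtain ⟨R, hR, hmax⟩ := Set.exists_max_image {Q : Subgroup G | Q ≤ ⊤ ∧ IsPGroup p Q ∧ (⊤ : Subgroup G) ≤ Subgroup.normalizer (Q : Set G)}
    (fun Q => Nat.card Q) (Set.toFinite _) ⟨⊥, le_top, IsPGroup.of_bot, by
      rw [top_le_iff, Subgroup.normalizer_eq_top_iff]
      infer_instance⟩
  refine ⟨R, hR, fun Q hQ => ?_⟩
  obtain ⟨-, hQp, hQn⟩ := hQ
  obtain ⟨-, hRp, hRn⟩ := hR
  rw [top_le_iff, Subgroup.normalizer_eq_top_iff] at hQn hRn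
  have hsup : Nat.card (Q ⊔ R : Subgroup G) ≤ Nat.card R := by
    refine hmax (Q ⊔ R) ⟨le_top, IsPGroup.to_sup_of_normal_right hQp hRp, ?_⟩
    rw [top_le_iff, Subgroup.normalizer_eq_top_iff]
    infer_instance
  have heq : R = Q ⊔ R := Subgroup.eq_of_le_of_card_ge le_sup_right hsup
  rw [heq]
  exact le_sup_left

/-- the part of `m` made of the primes below `p`, and the rest -/
theorem MN4E_split (p : ℕ) (m : ℕ) : 0 < m → ∃ a b : ℕ, 0 < a ∧ 0 < b ∧ m = a * b ∧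
    (∀ q : ℕ, q.Prime → q ∣ a → q < p) ∧ ∀ q : ℕ, q.Prime → q ∣ b → p ≤ q := by
  induction m using Nat.recOnMul with
  | zero => exact fun h => absurd h (lt_irrefl 0)
  | one => exact fun _ => ⟨1, 1, one_pos, one_pos, rfl, fun q hq h => absurd (Nat.dvd_one.1 h) hq.ne_one,
      fun q hq h => absurd (Nat.dvd_one.1 h) hq.ne_one⟩
  | prime r hr =>
    intro _
    by_cases h : r < p
    · exact ⟨r, 1, hr.pos, one_pos, (mul_one r).symm, fun q hq hqr => by rwa [(Nat.prime_dvd_prime_iff_eq hq hr).1 hqr],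
        fun q hq h => absurd (Nat.dvd_one.1 h) hq.ne_one⟩
    · exact ⟨1, r, one_pos, hr.pos, (one_mul r).symm, fun q hq h => absurd (Nat.dvd_one.1 h) hq.ne_one,
        fun q hq hqr => by rw [(Nat.prime_dvd_prime_iff_eq hq hr).1 hqr]; exact not_lt.1 h⟩
  | mul x y hx hy =>
    intro hxy
    obtain ⟨a, b, ha, hb, e, h1, h2⟩ := hx (Nat.pos_of_mul_pos_right hxy)
    obtain ⟨a', b', ha', hb', e', h1', h2'⟩ := hy (Nat.pos_of_mul_pos_left hxy)
    refine ⟨a * a', b * b', Nat.mul_pos ha ha', Nat.mul_pos hb hb', by rw [e, e']; ring, fun q hq h => ?_, fun q hq h => ?_⟩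
    · exact ((Nat.Prime.dvd_mul hq).1 h).elim (h1 q hq) (h1' q hq)
    · exact ((Nat.Prime.dvd_mul hq).1 h).elim (h2 q hq) (h2' q hq)

section

variable {G : Type} [Group G]

theorem MN4E_am_pow {α : MulAut G} {D : Subgroup G} (h : am α D = D) (k : ℕ) : am (α ^ k) D = D := by
  induction k with
  | zero => rw [pow_zero, am_one]
  | succ k ih => rw [pow_succ, am_mul, h, ih]

theorem MN4E_stb_pow [Finite G] (hIM : IM_stmt) {M : Ideal (integralClosure ℤ ℂ)} {χ : G → ℂ} {α : MulAut G}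
    (h : Stb M χ α) (k : ℕ) : Stb M χ (α ^ k) := by
  induction k with
  | zero =>
    have e : funMap (α ^ 0) χ = χ := by
      funext x
      rw [pow_zero]
      simp [funMap]
    unfold Stb
    rw [e]
    exact (hIM G M χ χ χ).1
  | succ k ih =>
    unfold Stb
    rw [pow_succ, funMap_mul]
    have h1 : Induces M (funMap (α ^ k) (funMap α χ)) (funMap (α ^ k) χ) :=
      ((hIM G M (funMap α χ) χ χ).2.2.2 (α ^ k)).2 h
    exact (hIM G M _ _ _).2.2.1 h1 ih

end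

theorem MN4E_num (p l l' : ℕ) (m : ℤ) (h1 : 2 * l < p) (h2 : 2 * l' < p) (z z' : ℂ) (hz : ‖z‖ ≤ l) (hz' : ‖z'‖ ≤ l')
    (h : z - z' = (p : ℂ) * m) : z = z' := by
  have hp : 0 < p := by omega
  have h3 : ‖(p : ℂ) * m‖ ≤ l + l' := by
    rw [← h]
    exact (norm_sub_le z z').trans (add_le_add hz hz')
  have h4 : ‖(p : ℂ) * m‖ = (p : ℝ) * |(m : ℝ)| := by
    rw [norm_mul, Complex.norm_natCast, Complex.norm_intCast]
  rw [h4] at h3
  have h5 : m = 0 := by
    by_contra hm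
    have h6 : (1 : ℝ) ≤ |(m : ℝ)| := by
      have : (1 : ℤ) ≤ |m| := Int.one_le_abs hm
      exact_mod_cast this
    have h7 : (p : ℝ) ≤ l + l' := by
      calc (p : ℝ) = p * 1 := (mul_one _).symm
        _ ≤ p * |(m : ℝ)| := by gcongr
        _ ≤ l + l' := h3
    have h8 : p ≤ l + l' := by exact_mod_cast h7
    omega
  rw [h5, Int.cast_zero, mul_zero] at h
  exact sub_eq_zero.1 h

theorem MN4E_three {p : ℕ} {M : Ideal (integralClosure ℤ ℂ)} {G : Type} [Group G] [Finite G] {D : Subgroup G} {θ : G → ℂ}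
    (hH : Hyp p M D θ) (hp : 2 < p) : 3 < p := by
  rcases Nat.lt_or_ge 3 p with h | h
  · exact h
  exfalso
  have hp3 : p = 3 := by omega
  unfold Hyp at hH
  rw [hp3] at hH
  have h1 : (RG M D θ).ncard ≤ Nat.card D := by
    have h2 : (RG M D θ).ncard ≤ (D : Set G).ncard := Set.ncard_le_ncard (fun u hu => hu.1) (Set.toFinite _)
    exact h2
  have h2 : 1 ≤ iI M D θ := by
    apply Nat.one_le_iff_ne_zero.2
    unfold iI
    exact Subgroup.index_ne_zero_of_finite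
  have h3 : 1 * Nat.card D ≤ iI M D θ * Nat.card D := Nat.mul_le_mul_right _ h2
  omega

theorem MN4E (hTG4E : TG4E_stmt) (hDV4E : DV4E_stmt) (hOPD : OPD_stmt) (hHT4 : HT4_stmt) (hBD4 : BD4_stmt) (hONB : ONB_stmt) (hBDE : BDE_stmt) (hPRK : PRK_stmt) (hBAA : BAA_stmt) (hBCL : BCL_stmt) (hIM : IM_stmt) : MN4E_stmt := by
  intro p M hS
  suffices H : ∀ n : ℕ, ∀ (G : Type) [Group G] [Finite G], Nat.card G = n → ∀ (D : Subgroup G) (x : G) (θ χ : G → ℂ),
      Rt p M D x θ χ → Hyp p M D θ → ∀ α : MulAut G, am α D = D → Stb M χ α → tL p M χ ⊤ α = tL p M χ (nz D) α by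
    intro G _ _ D x θ χ hR hH α hα hst
    exact H _ G rfl D x θ χ hR hH α hα hst
  intro n
  induction n using Nat.strong_induction_on with
  | _ n ih =>
    intro G _ _ hn D x θ χ hR hH α hα hst
    obtain ⟨R, hRop⟩ := MN4E_op p hS.pr G
    have hRD := hOPD p M hS G D x θ χ hR R hRop
    by_cases hne : R = D
    · have h1 : (⊤ : Subgroup G) ≤ Subgroup.normalizer (R : Set G) := hRop.1.2.2
      have h2 : nz D = ⊤ := by
        rw [← hne]
        exact top_le_iff.1 h1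
      rw [h2]
    · obtain ⟨l, hl, hl1, hlp⟩ := hBD4 p M hS G D x θ χ hR hH
      obtain ⟨l', hl', hl1', hlp'⟩ := hONB p M hS G D x θ χ hR hH
      have hp3 : 3 < p := MN4E_three hH (by omega)
      obtain ⟨m₁, m₂, hm₁, hm₂, hm, hq₁, hq₂⟩ := MN4E_split p (orderOf α) (orderOf_pos α)
      have hcop : Nat.Coprime m₁ m₂ := by
        refine Nat.Coprime.symm (Nat.coprime_of_dvd fun q hq h1 h2 => ?_)
        exact absurd (hq₁ q hq h2) (not_lt.2 (hq₂ q hq h1))
      obtain ⟨k, hk₁, hk₂⟩ := Nat.chineseRemainder hcop 1 0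
      have hαm : α ^ (m₁ * m₂) = 1 := by
        rw [← hm]
        exact pow_orderOf_eq_one α
      have hk : (α ^ k) ^ m₁ = 1 := by
        obtain ⟨j, hj⟩ := (Nat.modEq_zero_iff_dvd).1 hk₂
        have e : k * m₁ = (m₁ * m₂) * j := by
          rw [hj]
          ring
        rw [← pow_mul, e, pow_mul, hαm, one_pow]
      have hαk := MN4E_am_pow hα k
      have hstk := MN4E_stb_pow hIM hst k
      have h1 := hTG4E p M hS G D x θ χ hR hH R hRop hRD hne (α ^ k) hαk hstk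
        (fun G' _ _ hlt D' x' θ' χ' hR' hH' β hβ hstβ =>
          ih (Nat.card G') (by rw [← hn]; exact hlt) G' rfl D' x' θ' χ' hR' hH' β hβ hstβ)
      obtain ⟨m', hm'⟩ := hDV4E p M hS G D x θ χ hR (hHT4 p M hS G D x θ χ hR hH) R hRop hRD hne (α ^ k) hstk
        m₁ hm₁ hk hp3 hq₁
      have htop : ∀ β : MulAut G, am β (⊤ : Subgroup G) = ⊤ := fun β =>
        (hBAA G M p β ⊥ ⊥ ⊥ χ χ χ).1.2.2.2.2.2.1
      have hnz : ∀ β : MulAut G, am β D = D → am β (nz D) = nz D := by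
        intro β hβ
        have h2 := (hBAA G M p β D ⊥ ⊥ χ χ χ).1.2.1
        rw [hβ] at h2
        exact h2.symm
      have hblk : ∀ (β : MulAut G) (H : Subgroup G), am β H = H → Stb M χ β → ∀ ψ ∈ Blk M χ H, funMap β ψ ∈ Blk M χ H := by
        intro β H hβ hs ψ hψ
        refine ⟨?_, ?_⟩
        · have h2 := (hBAA G M p β ⊥ ⊥ H χ ψ χ).2.2.1.1 hψ.1
          rwa [hβ] at h2
        · have h2 : Induces M (funMap β ψ) (funMap β χ) := ((hIM G M ψ χ χ).2.2.2 β).2 hψ.2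
          exact (hIM G M _ _ _).2.2.1 h2 hs
      have b1 : ‖tL p M χ ⊤ (α ^ k)‖ ≤ l := hBDE p M hS G ⊤ (Blk M χ ⊤) (hBCL G M χ ⊤) (α ^ k) (htop _)
        (hblk _ _ (htop _) hstk) l hl
      have b2 : ‖tL p M χ (nz D) (α ^ k)‖ ≤ l' := hBDE p M hS G (nz D) (Blk M χ (nz D)) (hBCL G M χ (nz D)) (α ^ k)
        (hnz _ hαk) (hblk _ _ (hnz _ hαk) hstk) l' hl'
      have hG0 : (Nat.card G : ℂ) ≠ 0 := by exact_mod_cast Nat.card_pos.ne'
      have h3 : tL p M χ ⊤ (α ^ k) - tL p M χ (nz D) (α ^ k) = (p : ℂ) * m' := by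
        rw [h1] at hm'
        apply mul_left_cancel₀ hG0
        rw [hm']
        ring
      have h4 := MN4E_num p l l' m' hlp hlp' _ _ b1 b2 h3
      have h5 := hPRK p M hS G χ ⊤ α (htop α) hst l hl m₁ m₂ k hm₁ hm₂ hαm
        (fun q hq hqd => by have := hq₂ q hq hqd; omega) hk₁
      have h6 := hPRK p M hS G χ (nz D) α (hnz α hα) hst l' hl' m₁ m₂ k hm₁ hm₂ hαm
        (fun q hq hqd => by have := hq₂ q hq hqd; omega) hk₁
      rw [← h5, ← h6, h4]

end Pool.Agent.FI4E
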